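import Pool.Agent.Lib.MP_078aef_co.Ham

/-!
For all `k ≤ s` with `10 s + 55 ≤ 11 k` every Ramsey-critical `(k,s)`-graph is Hamiltonian.
-/

namespace Pool.Agent.Results.MP_078aef_co.SectorHamiltonian

/-- The Ramsey number `R(k,s)`: the least `n` such that every graph on `n` vertices contains
`K_k` or has independence number at least `s`. -/
noncomputable def ramsey (k s : ℕ) : ℕ :=
  sInf {n : ℕ | ∀ H : SimpleGraph (Fin n), ¬ H.CliqueFree k ∨ s ≤ H.indepNum}

/-- A graph is Ramsey-critical if it has no `K_k`, independence number less than `s`, and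
exactly `R(k,s) - 1` vertices. -/
structure IsCritical {V : Type*} [Fintype V] (k s : ℕ) (G : SimpleGraph V) : Prop where
  cliqueFree : G.CliqueFree k
  indep : G.indepNum < s
  card : Fintype.card V = ramsey k s - 1

theorem result (k s : ℕ) (hks : k ≤ s) (h : 10 * s + 55 ≤ 11 * k) {V : Type*} [Fintype V]
    [DecidableEq V] (G : SimpleGraph V) (hG : IsCritical k s G) :
    ∃ (a : V) (p : G.Walk a a), p.IsHamiltonianCycle :=
  Pool.Agent.RamseyHam.sector hks h ⟨hG.cliqueFree, hG.indep, hG.card⟩

end Pool.Agent.Results.MP_078aef_co.SectorHamiltonian
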